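import Pool.Agent.H923R2.FP.Stubs

namespace Pool.Agent.H923R2.FP.T_C1

open Pool.Agent.H923R2.FP

lemma step {B : Type} [Ring B] (x : B) : ∀ m n : ℕ,
    Uc x (m + 1) * Uc x (n + 1) = Uc x (m + n + 2) + Uc x m * Uc x n
  | 0, n => by
    have h : Uc x (n + 2) = x * Uc x (n + 1) - Uc x n := rfl
    have h1 : Uc x (0 + 1) = x := rfl
    have h0 : Uc x 0 = 1 := rfl
    have e : 0 + n + 2 = n + 2 := by omega
    rw [e, h, h1, h0]
    noncomm_ring
  | 1, n => by
    have h := step x 0 n
    have e1 : Uc x (1 + 1) = x * Uc x 1 - Uc x 0 := rfl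
    have e2 : Uc x (1 + n + 2) = x * Uc x (n + 2) - Uc x (n + 1) := by
      have : 1 + n + 2 = (n + 1) + 2 := by omega
      rw [this]; rfl
    have e3 : Uc x (n + 2) = x * Uc x (n + 1) - Uc x n := rfl
    have h1 : Uc x 1 = x := rfl
    have h0 : Uc x 0 = 1 := rfl
    rw [e1, e2, e3, h1, h0]
    noncomm_ring
  | m + 2, n => by
    have ha := step x (m + 1) n
    have hb := step x m n
    have e1 : Uc x (m + 2 + 1) = x * Uc x (m + 1 + 1) - Uc x (m + 1) := rfl
    have e2 : Uc x (m + 2 + n + 2) = x * Uc x (m + 1 + n + 2) - Uc x (m + n + 2) := by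
      have h1 : m + 2 + n + 2 = (m + n + 2) + 2 := by omega
      have h2 : m + 1 + n + 2 = (m + n + 2) + 1 := by omega
      rw [h1, h2]; rfl
    have e3 : Uc x (m + 2) * Uc x n = x * (Uc x (m + 1) * Uc x n) - Uc x m * Uc x n := by
      rw [show Uc x (m + 2) = x * Uc x (m + 1) - Uc x m from rfl, sub_mul, mul_assoc]
    rw [e1, e2, e3, sub_mul, mul_assoc, ha, hb]
    noncomm_ring

theorem t_C1 : S_C1 := by
  intro B _ x m
  induction m with
  | zero =>
    intro n
    have h0 : Uc x 0 = 1 := rfl
    simp [h0]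
  | succ m ih =>
    intro n
    cases n with
    | zero =>
      have h0 : Uc x 0 = 1 := rfl
      simp [h0]
    | succ n =>
      have e : min (m + 1) (n + 1) + 1 = (min m n + 1) + 1 := by omega
      rw [step, ih n, e, Finset.sum_range_succ' _ (min m n + 1), add_comm]
      congr 1
      · apply Finset.sum_congr rfl
        intro k _
        congr 1
        omega
      · congr 1
        omega

end Pool.Agent.H923R2.FP.T_C1
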