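import Mathlib
import Pool.Agent.H922R2.OPC.Stubs

/-! MON: `f` is monic in `y`. -/

set_option autoImplicit false

open MvPolynomial

namespace Pool.Agent.H90.OPCMON
open Pool.Agent.H922R2.OPC

variable {k : Type} [Field k]

/-- `k[X][Y] → k[x, y]` -/
noncomputable def Th (k : Type) [Field k] : Polynomial (Polynomial k) →+* B k :=
  Polynomial.eval₂RingHom (Polynomial.aeval (X 0 : B k)).toRingHom (X 1)

theorem Th_surj : Function.Surjective (Th k) := by
  intro f
  induction f using MvPolynomial.induction_on with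
  | C a =>
    refine ⟨Polynomial.C (Polynomial.C a), ?_⟩
    simp [Th, MvPolynomial.algebraMap_eq]
  | add p q hp hq =>
    obtain ⟨p', hp⟩ := hp
    obtain ⟨q', hq⟩ := hq
    exact ⟨p' + q', by rw [map_add, hp, hq]⟩
  | mul_X p i hp =>
    obtain ⟨p', hp⟩ := hp
    fin_cases i
    · refine ⟨p' * Polynomial.C Polynomial.X, ?_⟩
      rw [map_mul, hp]
      simp [Th]
    · refine ⟨p' * Polynomial.X, ?_⟩
      rw [map_mul, hp]
      simp [Th]

/-- `k[X] → L`, `x ↦ t^(-n)` -/
noncomputable def ps (k : Type) [Field k] (n : ℕ) : Polynomial k →+* L k :=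
  (Polynomial.aeval (tp (-(n : ℤ)) : L k)).toRingHom

theorem tp_pow (i : ℤ) (m : ℕ) : (tp i : L k) ^ m = tp (m * i) := by
  induction m with
  | zero => simp [tp, HahnSeries.single_zero_one]
  | succ m ih =>
    have h : (m : ℤ) * i + i = ((m + 1 : ℕ) : ℤ) * i := by push_cast; ring
    rw [pow_succ, ih, tp, tp, tp, HahnSeries.single_mul_single, mul_one, h]

theorem am (a : k) : algebraMap k (L k) a = HahnSeries.C (Polynomial.C a) := by
  have h1 : algebraMap k (L k) a = HahnSeries.ofPowerSeries ℤ (Polynomial k)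
    (algebraMap k (PowerSeries (Polynomial k)) a) := rfl
  have h2 : algebraMap k (PowerSeries (Polynomial k)) a = PowerSeries.C (Polynomial.C a) := by
    rw [PowerSeries.algebraMap_apply]; rfl
  rw [h1, h2, HahnSeries.ofPowerSeries_C]

theorem am2 (a : k) (x : L k) (i : ℤ) :
    (algebraMap k (L k) a * x).coeff i = Polynomial.C a * x.coeff i := by
  rw [am, HahnSeries.C_mul_eq_smul, HahnSeries.coeff_smul, smul_eq_mul]

theorem ps_coeff (n : ℕ) (hn : 0 < n) (c : Polynomial k) (i : ℕ) :
    (ps k n c).coeff ((i : ℤ) * (-(n : ℤ))) = Polynomial.C (c.coeff i) := by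
  have h1 : ps k n c = Polynomial.aeval (tp (-(n : ℤ)) : L k) c := rfl
  rw [h1]
  induction c using Polynomial.induction_on' with
  | add p q hp hq =>
    rw [map_add, HahnSeries.coeff_add, hp rfl, hq rfl, Polynomial.coeff_add, Polynomial.C_add]
  | monomial j a =>
    rw [Polynomial.aeval_monomial, tp_pow, am2, tp,
      HahnSeries.coeff_single, Polynomial.coeff_monomial]
    have hn' : (-(n : ℤ)) ≠ 0 := by omega
    by_cases h : j = i
    · subst h
      simp
    · have h2 : ¬ ((i : ℤ) * (-(n : ℤ)) = (j : ℤ) * (-(n : ℤ))) := by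
        intro h3
        exact h (by exact_mod_cast (mul_right_cancel₀ hn' h3).symm)
      rw [if_neg h2, if_neg h, mul_zero, Polynomial.C_0]

theorem ps_inj (n : ℕ) (hn : 0 < n) : Function.Injective (ps k n) := by
  rw [injective_iff_map_eq_zero]
  intro c hc
  ext i
  have h := ps_coeff n hn c i
  rw [hc, HahnSeries.coeff_zero] at h
  rw [Polynomial.coeff_zero]
  exact Polynomial.C_eq_zero.mp h.symm

theorem evY_Th (n : ℕ) (p : Polynomial (Polynomial k)) :
    evY n (Th k p) = p.map (ps k n) := by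
  have h : (evY n : B k →ₐ[k] Polynomial (L k)).toRingHom.comp (Th k)
      = Polynomial.mapRingHom (ps k n) := by
    refine Polynomial.ringHom_ext' ?_ ?_
    · refine Polynomial.ringHom_ext ?_ ?_
      · intro a
        simp [Th, ps, evY, MvPolynomial.algebraMap_eq]
      · simp [Th, ps, evY]
    · simp [Th, evY]
  exact congrArg (fun g => g p) (congrArg DFunLike.coe h)

theorem mon (k : Type) [Field k] : S_MON k := by
  intro n f φ ζ hOP
  obtain ⟨hn, -, hprod⟩ := hOP
  obtain ⟨p, rfl⟩ := Th_surj f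
  rw [evY_Th] at hprod
  have hmon : (∏ i ∈ Finset.range n,
      (Polynomial.X - Polynomial.C (rot (ζ ^ i) φ)) : Polynomial (L k)).Monic :=
    Polynomial.monic_prod_of_monic _ _ fun i _ => Polynomial.monic_X_sub_C _
  have hdeg : (∏ i ∈ Finset.range n,
      (Polynomial.X - Polynomial.C (rot (ζ ^ i) φ)) : Polynomial (L k)).natDegree = n := by
    rw [Polynomial.natDegree_prod_of_monic _ _ fun i _ => Polynomial.monic_X_sub_C _]
    simp
  have hc : ∀ j, 0 < j → (p.map (ps k n)).coeff j = (∏ i ∈ Finset.range n,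
      (Polynomial.X - Polynomial.C (rot (ζ ^ i) φ)) : Polynomial (L k)).coeff j := by
    intro j hj
    rw [← hprod, Polynomial.coeff_sub, Polynomial.coeff_C, if_neg hj.ne', sub_zero]
  have hp1 : p.coeff n = 1 := by
    apply ps_inj n hn
    rw [map_one, ← Polynomial.coeff_map, hc n hn]
    have := hmon.coeff_natDegree
    rwa [hdeg] at this
  have hp0 : ∀ j, n < j → p.coeff j = 0 := by
    intro j hj
    apply ps_inj n hn
    rw [map_zero, ← Polynomial.coeff_map, hc j (by omega)]
    exact Polynomial.coeff_eq_zero_of_natDegree_lt (by rw [hdeg]; exact hj)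
  have hdp : p.natDegree < n + 1 :=
    Nat.lt_succ_of_le (Polynomial.natDegree_le_iff_coeff_eq_zero.mpr hp0)
  refine ⟨fun j => p.coeff j, ?_⟩
  have h1 : Th k p = Polynomial.eval₂ (Polynomial.aeval (X 0 : B k)).toRingHom (X 1) p := rfl
  rw [h1, Polynomial.eval₂_eq_sum_range' _ hdp, Finset.sum_range_succ, hp1, map_one, one_mul,
    add_comm]
  rfl

end Pool.Agent.H90.OPCMON
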